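import Pool.Agent.Helper32.PD.Defs

/-!
# Induced paths as lists
-/

set_option autoImplicit false

namespace Pool.Agent.Helper32.PD

open Finset
open scoped Classical

variable {V : Type}

theorem ipath_nil (F : SimpleGraph V) : IPath F [] :=
  ⟨List.nodup_nil, fun i _ hi => absurd hi (by simp)⟩

theorem ipath_singleton (F : SimpleGraph V) (x : V) : IPath F [x] := by
  refine ⟨List.nodup_singleton x, fun i j hi hj => ?_⟩
  simp only [List.length_singleton, Nat.lt_one_iff] at hi hj
  subst hi
  subst hj
  simp

theorem ipath_pair (F : SimpleGraph V) {x y : V} (h : F.Adj x y) : IPath F [x, y] := by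
  refine ⟨by simp [h.ne], fun i j hi hj => ?_⟩
  have hi' : i = 0 ∨ i = 1 := by
    simp only [List.length_cons, List.length_nil] at hi
    omega
  have hj' : j = 0 ∨ j = 1 := by
    simp only [List.length_cons, List.length_nil] at hj
    omega
  rcases hi' with rfl | rfl <;> rcases hj' with rfl | rfl <;> simp [h, h.symm]

theorem ipath_reverse {F : SimpleGraph V} {l : List V} (h : IPath F l) : IPath F l.reverse := by
  refine ⟨List.nodup_reverse.2 h.1, fun i j hi hj => ?_⟩
  rw [List.getElem_reverse, List.getElem_reverse]
  rw [List.length_reverse] at hi hj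
  rw [h.2]
  omega

theorem ipath_left {F : SimpleGraph V} {l l' : List V} (h : IPath F (l ++ l')) : IPath F l := by
  refine ⟨(List.nodup_append.1 h.1).1, fun i j hi hj => ?_⟩
  have hi' : i < (l ++ l').length := by
    rw [List.length_append]
    omega
  have hj' : j < (l ++ l').length := by
    rw [List.length_append]
    omega
  rw [← h.2 i j hi' hj', List.getElem_append_left hi, List.getElem_append_left hj]

theorem ipath_right {F : SimpleGraph V} {l l' : List V} (h : IPath F (l ++ l')) :
    IPath F l' := by
  refine ⟨(List.nodup_append.1 h.1).2.1, fun i j hi hj => ?_⟩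
  have hi' : l.length + i < (l ++ l').length := by
    rw [List.length_append]
    omega
  have hj' : l.length + j < (l ++ l').length := by
    rw [List.length_append]
    omega
  have h1 := h.2 (l.length + i) (l.length + j) hi' hj'
  rw [List.getElem_append_right (by omega), List.getElem_append_right (by omega)] at h1
  simp only [Nat.add_sub_cancel_left] at h1
  rw [h1]
  omega

/-- the criterion for a concatenation of two nonempty lists -/
theorem ipath_append {F : SimpleGraph V} {l l' : List V} (h : IPath F l) (h' : IPath F l')
    (hn : l ≠ []) (hn' : l' ≠ [])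
    (hc : ∀ (i j : ℕ) (hi : i < l.length) (hj : j < l'.length), l[i] ≠ l'[j] ∧
      (F.Adj l[i] l'[j] ↔ (i + 1 = l.length ∧ j = 0))) : IPath F (l ++ l') := by
  have hl := List.length_pos_iff.2 hn
  have hl' := List.length_pos_iff.2 hn'
  refine ⟨List.nodup_append.2 ⟨h.1, h'.1, ?_⟩, fun i j hi hj => ?_⟩
  · intro x hx y hy
    obtain ⟨i, hi, rfl⟩ := List.getElem_of_mem hx
    obtain ⟨j, hj, rfl⟩ := List.getElem_of_mem hy
    exact (hc i j hi hj).1
  · rw [List.length_append] at hi hj
    by_cases h1 : i < l.length <;> by_cases h2 : j < l.length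
    · rw [List.getElem_append_left h1, List.getElem_append_left h2, h.2]
    · rw [List.getElem_append_left h1, List.getElem_append_right (by omega),
        (hc i (j - l.length) h1 (by omega)).2]
      omega
    · rw [List.getElem_append_right (by omega), List.getElem_append_left h2, F.adj_comm,
        (hc j (i - l.length) h2 (by omega)).2]
      omega
    · rw [List.getElem_append_right (by omega), List.getElem_append_right (by omega), h'.2]
      omega

/-- gluing at a common vertex -/
theorem ipath_glue {F : SimpleGraph V} {l l' : List V} {v : V} (h : IPath F (l ++ [v]))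
    (h' : IPath F (v :: l')) (ha : AntiL F l l') : IPath F (l ++ v :: l') := by
  by_cases hn : l = []
  · subst hn
    simpa using h'
  · refine ipath_append (ipath_left h) h' hn (by simp) fun i j hi hj => ?_
    by_cases hj0 : j = 0
    · subst hj0
      have hi' : i < (l ++ [v]).length := by
        rw [List.length_append]
        omega
      have hl : l.length < (l ++ [v]).length := by
        rw [List.length_append]
        simp
      have h1 := h.2 i l.length hi' hl
      rw [List.getElem_append_left hi, List.getElem_append_right (by omega)] at h1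
      simp only [Nat.sub_self, List.getElem_cons_zero] at h1
      refine ⟨?_, ?_⟩
      · have h2 := (List.nodup_append.1 h.1).2.2
        simp only [List.getElem_cons_zero]
        exact h2 _ (List.getElem_mem hi) v (by simp)
      · simp only [List.getElem_cons_zero]
        rw [h1, and_true]
        omega
    · obtain ⟨j, rfl⟩ : ∃ j', j = j' + 1 := ⟨j - 1, by omega⟩
      have hj' : j < l'.length := by
        simp only [List.length_cons] at hj
        omega
      have h1 := ha l[i] (List.getElem_mem hi) l'[j] (List.getElem_mem hj')
      simp only [List.getElem_cons_succ]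
      exact ⟨h1.1, by
        constructor
        · intro h2
          exact absurd h2 h1.2
        · rintro ⟨_, h2⟩
          omega⟩

/-- only the last element of `l` sees the next vertex -/
theorem ipath_snoc_adj {F : SimpleGraph V} {l : List V} {v w : V} (h : IPath F (l ++ [v, w]))
    (x : V) (hx : x ∈ l) : x ≠ w ∧ ¬ F.Adj x w := by
  obtain ⟨i, hi, rfl⟩ := List.getElem_of_mem hx
  have hi' : i < (l ++ [v, w]).length := by
    rw [List.length_append]
    omega
  have hl : l.length + 1 < (l ++ [v, w]).length := by
    rw [List.length_append]
    simp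
  have h1 := h.2 i (l.length + 1) hi' hl
  rw [List.getElem_append_left hi, List.getElem_append_right (by omega)] at h1
  simp only [Nat.add_sub_cancel_left, List.getElem_cons_succ, List.getElem_cons_zero] at h1
  refine ⟨?_, ?_⟩
  · have h2 := (List.nodup_append.1 h.1).2.2
    exact h2 _ (List.getElem_mem hi) w (by simp)
  · rw [h1]
    omega

/-- only the first element of the rest sees the first vertex -/
theorem ipath_cons_adj {F : SimpleGraph V} {l : List V} {v w : V} (h : IPath F (v :: w :: l))
    (x : V) (hx : x ∈ l) : v ≠ x ∧ ¬ F.Adj v x := by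
  obtain ⟨i, hi, rfl⟩ := List.getElem_of_mem hx
  have h1 := h.2 0 (i + 2) (by simp) (by simp; omega)
  simp only [List.getElem_cons_zero, List.getElem_cons_succ] at h1
  refine ⟨?_, ?_⟩
  · have h2 := h.1
    simp only [List.nodup_cons, List.mem_cons, not_or] at h2
    rintro rfl
    exact h2.1.2 (List.getElem_mem hi)
  · rw [h1]
    omega

/-- gluing by an edge between the last and the first vertex -/
theorem ipath_join {F : SimpleGraph V} {l l' : List V} {v w : V} (h : IPath F (l ++ [v]))
    (h' : IPath F (w :: l')) (hvw : F.Adj v w) (h1 : AntiL F l (w :: l')) (h2 : AntiL F [v] l') :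
    IPath F (l ++ v :: w :: l') := by
  refine ipath_glue h ?_ h1
  have h3 := ipath_glue (l := [v]) (l' := l') (v := w) (by simpa using ipath_pair F hvw) h'
    (by simpa using h2)
  simpa using h3

theorem AntiL.symm {F : SimpleGraph V} {l l' : List V} (h : AntiL F l l') : AntiL F l' l :=
  fun x hx y hy => ⟨(h y hy x hx).1.symm, fun hh => (h y hy x hx).2 hh.symm⟩

theorem antiL_nil (F : SimpleGraph V) (l : List V) : AntiL F [] l := fun x hx => by simp at hx

theorem antiL_append_left {F : SimpleGraph V} {l₁ l₂ l' : List V} :
    AntiL F (l₁ ++ l₂) l' ↔ AntiL F l₁ l' ∧ AntiL F l₂ l' := by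
  unfold AntiL
  constructor
  · intro h
    exact ⟨fun x hx => h x (List.mem_append.2 (Or.inl hx)),
      fun x hx => h x (List.mem_append.2 (Or.inr hx))⟩
  · rintro ⟨h1, h2⟩ x hx
    rcases List.mem_append.1 hx with hx | hx
    · exact h1 x hx
    · exact h2 x hx

theorem antiL_append_right {F : SimpleGraph V} {l₁ l₂ l' : List V} :
    AntiL F l' (l₁ ++ l₂) ↔ AntiL F l' l₁ ∧ AntiL F l' l₂ := by
  constructor
  · intro h
    exact ⟨(antiL_append_left.1 h.symm).1.symm, (antiL_append_left.1 h.symm).2.symm⟩
  · rintro ⟨h1, h2⟩
    exact (antiL_append_left.2 ⟨h1.symm, h2.symm⟩).symm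

theorem antiL_cons_left {F : SimpleGraph V} {x : V} {l l' : List V} :
    AntiL F (x :: l) l' ↔ AntiL F [x] l' ∧ AntiL F l l' := by
  rw [← List.singleton_append, antiL_append_left]

theorem antiL_cons_right {F : SimpleGraph V} {x : V} {l l' : List V} :
    AntiL F l' (x :: l) ↔ AntiL F l' [x] ∧ AntiL F l' l := by
  rw [← List.singleton_append, antiL_append_right]

theorem antiL_reverse_left {F : SimpleGraph V} {l l' : List V} :
    AntiL F l.reverse l' ↔ AntiL F l l' := by
  unfold AntiL
  simp

theorem antiL_reverse_right {F : SimpleGraph V} {l l' : List V} :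
    AntiL F l' l.reverse ↔ AntiL F l' l := by
  unfold AntiL
  simp

end Pool.Agent.Helper32.PD
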