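import Pool.Agent.Helper32.PD.CoreLemmas
import Pool.Agent.Helper8.PD.Conn
import Pool.Agent.Helper8.PD.Stab
import Pool.Agent.Helper68.PD.OneHub
import Pool.Agent.Helper31.PD.Common
import Pool.Agent.Helper9.PD.Common
import Pool.Agent.Helper9.PD.Private
import Pool.Agent.Helper82.PD.Hubs
import Pool.Agent.Helper92.PD.W1
import Pool.Agent.Helper4.PD.W2

/-!
# The combinatorial core
-/

set_option autoImplicit false

namespace Pool.Agent.Helper32.PD

open Finset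
open scoped Classical

variable {V : Type}

/-- The conclusion of the core. -/
def CoreC [Fintype V] {ι₀ ι₁ ε : Type} (F : SimpleGraph V) (side : V → Bool) (n : ℕ)
    (a : ε → ι₀) (b : ε → ι₁) (q : ℕ) : Prop :=
  ∃ (g : ℕ) (f₀ : ι₀ → V) (f₁ : ι₁ → V) (p : ε → List V) (W : Finset V),
    g < q ∧ g + 1 ≠ q ∧ SubD F a b q g f₀ f₁ p ∧ (∀ i, f₀ i ∈ W) ∧ (∀ i, f₁ i ∈ W) ∧
      (∀ e, ∀ v ∈ p e, v ∈ W) ∧ ∀ s, cnt side s (W ∪ nbh F W) ≤ n / 2

/-- Second level: private leaf sets. -/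
theorem core_private {ι₀ ι₁ ε : Type} [Fintype ι₀] [Fintype ι₁] [Fintype ε] (a : ε → ι₀)
    (b : ε → ι₁) (ha : ∀ i, (univ.filter fun e => a e = i).card ≤ 3)
    (hb : ∀ i, (univ.filter fun e => b e = i).card ≤ 3) (q : ℕ) (hq : q = 2 ∨ q = 3) :
    ∃ T : ℕ, ∀ ξ : ℝ, 0 < ξ → ξ ≤ 1 / 4 → ∃ δ₀ : ℝ, 0 < δ₀ ∧
    ∀ (V : Type) [Fintype V] (F : SimpleGraph V) (side : V → Bool) (n : ℕ) (δ c : ℝ), 1 ≤ n →
      0 < c → c ≤ δ → δ ≤ δ₀ → Host F side n δ c →
      ∀ (I Z : Fin T → Finset V) (b' : Bool), Hubs F I Z (fun _ x => x) →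
        (∀ s, cnt side s (univ.biUnion fun l => I l ∪ nbh F (I l)) ≤ n / 4) →
        (∀ l, ∀ x ∈ Z l, side x = b') → (∀ l, ξ * n ≤ (Z l).card) →
        CoreC F side n a b q := by
  obtain ⟨M1, K1, C1, hC1, hW1⟩ := W1 a b ha hb q hq
  obtain ⟨M2, K2, C2, hC2, hW2⟩ := W2 a b ha hb q hq
  set m := max M1 (M2 + 1) with hm
  obtain ⟨T, c₀, hc₀, hc₀', hst⟩ := stabilise m C1 hC1
  refine ⟨T, fun ξ hξ hξ' => ?_⟩
  have hcξ : 0 < c₀ * ξ := mul_pos hc₀ hξ
  have hcξ' : c₀ * ξ ≤ 1 / 4 := le_trans (mul_le_of_le_one_left hξ.le hc₀') hξ'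
  obtain ⟨δ₁, hδ₁, hpr⟩ := exists_sys2_private M2 C2 hC2 (c₀ * ξ) hcξ hcξ'
  have hC1' : 0 < C1 := by linarith
  refine ⟨min (min δ₁ (c₀ * ξ / C1)) (min (1 / 2) (min (1 / (8 * (K1 + 1))) (1 / (8 * (K2 + 1))))),
    by positivity, fun V _ F side n δ c hn hc hcδ hδ H I Z b' hH hfoot hZs hZc => ?_⟩
  have hδ1 : δ ≤ δ₁ := hδ.trans ((min_le_left _ _).trans (min_le_left _ _))
  have hδ2 : δ ≤ c₀ * ξ / C1 := hδ.trans ((min_le_left _ _).trans (min_le_right _ _))
  have hδ3 : δ ≤ 1 / 2 := hδ.trans ((min_le_right _ _).trans (min_le_left _ _))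
  have hδ4 : δ ≤ 1 / (8 * (K1 + 1)) :=
    hδ.trans ((min_le_right _ _).trans ((min_le_right _ _).trans (min_le_left _ _)))
  have hδ5 : δ ≤ 1 / (8 * (K2 + 1)) :=
    hδ.trans ((min_le_right _ _).trans ((min_le_right _ _).trans (min_le_right _ _)))
  have hδ0 : 0 < δ := hc.trans_le hcδ
  have hn0 : (0 : ℝ) < n := by exact_mod_cast hn
  have h1n : 1 ≤ δ * n := by
    have h1 := H.one_lt hn (by linarith)
    have h2 := mul_le_mul_of_nonneg_right hcδ hn0.le
    linarith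
  have hK1 : 8 * (K1 : ℝ) * δ ≤ 1 := by
    rw [le_div_iff₀ (by positivity)] at hδ4
    nlinarith
  have hK2 : 8 * (K2 : ℝ) * δ ≤ 1 := by
    rw [le_div_iff₀ (by positivity)] at hδ5
    nlinarith
  obtain ⟨ξ', σ, Z', hσ, h1, h2, h3, h4, h5⟩ := hst V F n Z (fun _ x => x) ξ hξ hZc
  rcases h5 with h5 | h5
  · -- anticomplete
    have hle : M2 + 1 ≤ m := le_max_right _ _
    set τ : Fin (M2 + 1) → Fin T := fun i => σ (Fin.castLE hle i) with hτ
    have hτi : Function.Injective τ := hσ.comp (Fin.castLE_injective hle)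
    have hH' := hH.sub τ hτi (fun i => Z' (Fin.castLE hle i)) fun i => h3 _
    obtain ⟨f, X, hS⟩ := hpr V F side n δ c hn hc hcδ hδ1 H (fun i => I (τ i))
      (fun i => Z' (Fin.castLE hle i)) b' hH'
      (fun l l' hll' x hx y hy => h5 _ _ ((Fin.castLE_injective hle).ne hll') x hx y hy)
      (fun s => (cnt_mono _ _ (biUnion_subset.2 fun l _ =>
        subset_biUnion_of_mem (fun l => I l ∪ nbh F (I l)) (mem_univ (τ l)))).trans (hfoot s))
      (fun l x hx => hZs _ x (h3 _ hx))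
      (fun l => (mul_le_mul_of_nonneg_right h1 hn0.le).trans (h4 _))
    have hF := hW2 V F _ _ f X _ (c₀ * ξ) n hcξ hn hS
    exact Found.footprint H h1n hK2 (univ.biUnion fun l => I l ∪ nbh F (I l))
      (fun l => subset_biUnion_of_mem (fun l => I l ∪ nbh F (I l)) (mem_univ _)) hfoot hF
  · -- coherent
    have hle : M1 ≤ m := le_max_left _ _
    set τ : Fin M1 → Fin T := fun i => σ (Fin.castLE hle i) with hτ
    have hτi : Function.Injective τ := hσ.comp (Fin.castLE_injective hle)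
    have hH' := hH.sub τ hτi (fun i => Z' (Fin.castLE hle i)) fun i => h3 _
    have hξ'0 : 0 < ξ' := hcξ.trans_le h1
    have hθ : δ ≤ ξ' / C1 := hδ2.trans (div_le_div_of_nonneg_right h1 hC1'.le)
    have hS : Sys1 F (fun i => I (τ i)) (fun i => Z' (Fin.castLE hle i)) (fun _ x => x) ξ'
        (ξ' / C1) (ξ' / C1) n := by
      refine ⟨hH', fun l => h4 _, fun l l' _ x _ => ?_, fun l x _ => ?_,
        fun l l' hll' X hX Y hY hXc hYc =>
          h5 _ _ ((Fin.castLE_injective hle).ne hll') X hX Y hY hXc hYc⟩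
      · exact (H.deg_sub (fun y hy => hZs _ y (h3 _ hy)) x).trans
          (mul_le_mul_of_nonneg_right hθ hn0.le)
      · have e1 : ((Z' (Fin.castLE hle l)).filter fun y => y = x).card ≤ 1 := by
          rw [card_le_one]
          intro y hy z hz
          rw [(mem_filter.1 hy).2, (mem_filter.1 hz).2]
        calc ((((Z' (Fin.castLE hle l)).filter fun y => y = x).card : ℕ) : ℝ) ≤ 1 := by
              exact_mod_cast e1
          _ ≤ δ * n := h1n
          _ ≤ _ := mul_le_mul_of_nonneg_right hθ hn0.le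
    have hF := hW1 V F _ _ _ ξ' n hξ'0 hn hS
    exact Found.footprint H h1n hK1 (univ.biUnion fun l => I l ∪ nbh F (I l))
      (fun l => subset_biUnion_of_mem (fun l => I l ∪ nbh F (I l)) (mem_univ _)) hfoot hF

/-- First level, anticomplete leaf sets. -/
theorem core_anti {ι₀ ι₁ ε : Type} [Fintype ι₀] [Fintype ι₁] [Fintype ε] (a : ε → ι₀)
    (b : ε → ι₁) (ha : ∀ i, (univ.filter fun e => a e = i).card ≤ 3)
    (hb : ∀ i, (univ.filter fun e => b e = i).card ≤ 3) (q : ℕ) (hq : q = 2 ∨ q = 3) :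
    ∃ T : ℕ, ∀ ξ : ℝ, 0 < ξ → ξ ≤ 1 / 4 → ∃ δ₀ : ℝ, 0 < δ₀ ∧
    ∀ (V : Type) [Fintype V] (F : SimpleGraph V) (side : V → Bool) (n : ℕ) (δ c : ℝ), 1 ≤ n →
      0 < c → c ≤ δ → δ ≤ δ₀ → Host F side n δ c →
      ∀ (I S Q : Fin T → Finset V) (b' : Bool), Hubs F I S (fun _ x => x) →
        (∀ l l', l ≠ l' → ∀ x ∈ S l, ∀ y ∈ S l', ¬ F.Adj x y) →
        (∀ s, cnt side s (univ.biUnion fun l => (I l ∪ S l) ∪ nbh F (I l ∪ S l)) ≤ n / 4) →
        (∀ l, ∀ x ∈ Q l, side x = b' ∧ ∃ s ∈ S l, F.Adj x s) →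
        (∀ l l', ∀ x ∈ Q l, ∀ y ∈ I l', x ≠ y ∧ ¬ F.Adj x y) →
        (∀ l, ξ * n ≤ (Q l).card) →
        CoreC F side n a b q := by
  obtain ⟨M2, K2, C2, hC2, hW2⟩ := W2 a b ha hb q hq
  obtain ⟨T2, hT2⟩ := core_private a b ha hb q hq
  set m := max M2 T2 with hm
  obtain ⟨T, c₁, hc₁, hc₁', hcp⟩ := common_or_private m
  refine ⟨T, fun ξ hξ hξ' => ?_⟩
  have hcξ : 0 < c₁ * ξ := mul_pos hc₁ hξ
  have hcξ' : c₁ * ξ ≤ 1 / 4 := le_trans (mul_le_of_le_one_left hξ.le hc₁') hξ'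
  obtain ⟨δ₁, hδ₁, hpr⟩ := hT2 (c₁ * ξ) hcξ hcξ'
  obtain ⟨δ₂, hδ₂, hco⟩ := exists_sys2_common M2 C2 hC2 (c₁ * ξ / 2) (by positivity)
    (by linarith)
  refine ⟨min (min δ₁ δ₂) (min (1 / 2) (1 / (8 * (K2 + 1)))),
    by positivity, fun V _ F side n δ c hn hc hcδ hδ H I S Q b' hH hSS hfoot hQ hQI hQc => ?_⟩
  have hδ1 : δ ≤ δ₁ := hδ.trans ((min_le_left _ _).trans (min_le_left _ _))
  have hδ2 : δ ≤ δ₂ := hδ.trans ((min_le_left _ _).trans (min_le_right _ _))
  have hδ3 : δ ≤ 1 / 2 := hδ.trans ((min_le_right _ _).trans (min_le_left _ _))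
  have hδ5 : δ ≤ 1 / (8 * (K2 + 1)) := hδ.trans ((min_le_right _ _).trans (min_le_right _ _))
  have hδ0 : 0 < δ := hc.trans_le hcδ
  have hn0 : (0 : ℝ) < n := by exact_mod_cast hn
  have h1n : 1 ≤ δ * n := by
    have h1 := H.one_lt hn (by linarith)
    have h2 := mul_le_mul_of_nonneg_right hcδ hn0.le
    linarith
  have hK2 : 8 * (K2 : ℝ) * δ ≤ 1 := by
    rw [le_div_iff₀ (by positivity)] at hδ5
    nlinarith
  set Qh : Fin T → Finset V := fun l => univ.filter fun x =>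
    side x = b' ∧ (∀ l', ∀ y ∈ I l', x ≠ y ∧ ¬ F.Adj x y) ∧ ∃ s ∈ S l, F.Adj x s with hQh
  have hQh' : ∀ l, ∀ x, x ∈ Qh l ↔
      side x = b' ∧ (∀ l', ∀ y ∈ I l', x ≠ y ∧ ¬ F.Adj x y) ∧ ∃ s ∈ S l, F.Adj x s := by
    intro l x
    rw [hQh]
    simp
  have hQhc : ∀ l, ξ * n ≤ (Qh l).card := by
    intro l
    refine (hQc l).trans (Nat.cast_le.2 (card_le_card fun x hx => ?_))
    exact (hQh' l x).2 ⟨(hQ l x hx).1, fun l' y hy => hQI l l' x hx y hy, (hQ l x hx).2⟩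
  obtain ⟨ρ, hρ, hρ'⟩ := hcp V n Qh ξ hξ hQhc
  rcases hρ' with ⟨X, hX, hXc⟩ | hZ
  · -- common
    have hle : M2 ≤ m := le_max_left _ _
    set τ : Fin M2 → Fin T := fun i => ρ (Fin.castLE hle i) with hτ
    have hτi : Function.Injective τ := hρ.comp (Fin.castLE_injective hle)
    rcases Nat.eq_zero_or_pos M2 with hM2 | hM2
    · -- no hubs at all: use the hypotheses of W2 with the trivial system on an empty index set
      subst hM2
      obtain ⟨f, X', O, hS⟩ := hco V F side n δ c hn hc hcδ hδ2 H (fun i => I (τ i))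
        (fun i => S (τ i)) b' (univ.filter fun x => side x = b')
        (hH.sub τ hτi (fun i => S (τ i)) fun i => Subset.refl _)
        (fun l => l.elim0) (fun s => by
          have : (univ : Finset (Fin 0)) = ∅ := by simp
          rw [this, biUnion_empty]
          unfold cnt
          simp
          positivity)
        (fun x hx => ⟨(mem_filter.1 hx).2, fun l => l.elim0, fun l => l.elim0⟩)
        (by
          rw [H.card b']
          nlinarith)
      have hF := hW2 V F _ _ f X' O (c₁ * ξ / 2) n (by positivity) hn hS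
      exact Found.footprint H h1n hK2 ∅ (fun l => l.elim0) (fun s => by
          unfold cnt
          simp
          positivity) hF
    · obtain ⟨f, X', O, hS⟩ := hco V F side n δ c hn hc hcδ hδ2 H (fun i => I (τ i))
        (fun i => S (τ i)) b' X
        (hH.sub τ hτi (fun i => S (τ i)) fun i => Subset.refl _)
        (fun l l' hll' => hSS _ _ (hτi.ne hll'))
        (fun s => (cnt_mono _ _ (biUnion_subset.2 fun l _ =>
          subset_biUnion_of_mem (fun l => (I l ∪ S l) ∪ nbh F (I l ∪ S l))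
            (mem_univ (τ l)))).trans (hfoot s))
        (fun x hx => ⟨((hQh' _ x).1 (hX x hx (Fin.castLE hle ⟨0, hM2⟩))).1,
          fun l => ((hQh' _ x).1 (hX x hx (Fin.castLE hle l))).2.1 _,
          fun l => ((hQh' _ x).1 (hX x hx (Fin.castLE hle l))).2.2⟩)
        (by
          refine le_trans (le_of_eq ?_) hXc
          ring)
      have hF := hW2 V F _ _ f X' O (c₁ * ξ / 2) n (by positivity) hn hS
      refine Found.footprint H h1n hK2
        (univ.biUnion fun l => (I l ∪ S l) ∪ nbh F (I l ∪ S l)) (fun l => ?_) hfoot hF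
      refine Subset.trans ?_ (subset_biUnion_of_mem
        (fun l => (I l ∪ S l) ∪ nbh F (I l ∪ S l)) (mem_univ (τ l)))
      exact union_subset_union subset_union_left (nbh_mono F subset_union_left)
  · -- private
    have hle : T2 ≤ m := le_max_right _ _
    set τ : Fin T2 → Fin T := fun i => ρ (Fin.castLE hle i) with hτ
    have hτi : Function.Injective τ := hρ.comp (Fin.castLE_injective hle)
    set Z : Fin T2 → Finset V := fun i => (Qh (τ i)).filter fun x =>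
      ∀ j, j ≠ Fin.castLE hle i → x ∉ Qh (ρ j) with hZdef
    have hZ1 : ∀ i, ∀ x ∈ Z i, x ∈ Qh (τ i) := fun i x hx => (mem_filter.1 hx).1
    have hZ2 : ∀ i j, i ≠ j → ∀ x ∈ Z i, ∀ s ∈ S (τ j), ¬ F.Adj x s := by
      intro i j hij x hx s hs hadj
      have h1 := (hQh' _ x).1 (hZ1 i x hx)
      refine (mem_filter.1 hx).2 (Fin.castLE hle j)
        ((Fin.castLE_injective hle).ne hij.symm) ((hQh' _ x).2 ⟨h1.1, h1.2.1, s, hs, hadj⟩)
    have hSI : ∀ l, ∀ s ∈ S l, ∃ y ∈ I l, F.Adj s y := hH.leaf_adj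
    have hZS : ∀ i j, ∀ x ∈ Z i, ∀ s ∈ S (τ j), x ≠ s := by
      rintro i j x hx s hs rfl
      obtain ⟨y, hy, hxy⟩ := hSI _ x hs
      exact (((hQh' _ x).1 (hZ1 i x hx)).2.1 _ y hy).2 hxy
    have hH2 : Hubs F (fun i => I (τ i) ∪ S (τ i)) Z (fun _ x => x) := by
      refine ⟨fun l => conn_union (hH.conn _) fun s hs => hSI _ s hs, fun l l' hll' => ?_,
        fun l x hx hx' => ?_, fun l x hx => ?_, fun l l' hll' x hx y hy => ?_⟩
      · have hne := hτi.ne hll'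
        intro x hx y hy
        rcases mem_union.1 hx with hx | hx <;> rcases mem_union.1 hy with hy | hy
        · exact hH.hub_anti _ _ hne x hx y hy
        · have h1 := hH.leaf_anti _ _ hne.symm y hy x hx
          exact ⟨h1.1.symm, fun h => h1.2 h.symm⟩
        · exact hH.leaf_anti _ _ hne x hx y hy
        · refine ⟨?_, hSS _ _ hne x hx y hy⟩
          rintro rfl
          obtain ⟨z, hz, hxz⟩ := hSI _ x hy
          exact (hH.leaf_anti _ _ hne x hx z hz).2 hxz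
      · rcases mem_union.1 hx' with hx' | hx'
        · exact (((hQh' _ x).1 (hZ1 l x hx)).2.1 _ x hx').1 rfl
        · exact hZS l l x hx x hx' rfl
      · obtain ⟨s, hs, hxs⟩ := ((hQh' _ x).1 (hZ1 l x hx)).2.2
        exact ⟨s, mem_union_right _ hs, hxs⟩
      · rcases mem_union.1 hy with hy | hy
        · exact ((hQh' _ x).1 (hZ1 l x hx)).2.1 _ y hy
        · exact ⟨hZS l l' x hx y hy, hZ2 l l' hll' x hx y hy⟩
    refine hpr V F side n δ c hn hc hcδ hδ1 H (fun i => I (τ i) ∪ S (τ i)) Z b' hH2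
      (fun s => (cnt_mono _ _ (biUnion_subset.2 fun l _ =>
        subset_biUnion_of_mem (fun l => (I l ∪ S l) ∪ nbh F (I l ∪ S l))
          (mem_univ (τ l)))).trans (hfoot s))
      (fun l x hx => ((hQh' _ x).1 (hZ1 l x hx)).1) (fun l => ?_)
    exact hZ (Fin.castLE hle l)

theorem core {ι₀ ι₁ ε : Type} [Fintype ι₀] [Fintype ι₁] [Fintype ε] (a : ε → ι₀) (b : ε → ι₁)
    (ha : ∀ i, (univ.filter fun e => a e = i).card ≤ 3)
    (hb : ∀ i, (univ.filter fun e => b e = i).card ≤ 3) (q : ℕ) (hq : q = 2 ∨ q = 3) :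
    ∃ δ c : ℝ, 0 < c ∧ c ≤ δ ∧ δ ≤ 1 / 100 ∧
    ∀ (V : Type) [Fintype V] (F : SimpleGraph V) (side : V → Bool) (n : ℕ), 1 ≤ n →
      Host F side n δ c →
      ∃ (g : ℕ) (f₀ : ι₀ → V) (f₁ : ι₁ → V) (p : ε → List V) (W : Finset V),
        g < q ∧ g + 1 ≠ q ∧ SubD F a b q g f₀ f₁ p ∧ (∀ i, f₀ i ∈ W) ∧ (∀ i, f₁ i ∈ W) ∧
          (∀ e, ∀ v ∈ p e, v ∈ W) ∧ ∀ s, cnt side s (W ∪ nbh F W) ≤ n / 2 := by
  obtain ⟨M1, K1, C1, hC1, hW1⟩ := W1 a b ha hb q hq
  obtain ⟨T3, hT3⟩ := core_anti a b ha hb q hq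
  set m := max M1 (2 * T3) with hm
  obtain ⟨T, c₀, hc₀, hc₀', hst⟩ := stabilise m C1 hC1
  obtain ⟨κ₀, hκ₀, hhub⟩ := H82.exists_hubs T
  set κ := min κ₀ (1 / 4) with hκdef
  have hκ : 0 < κ := lt_min hκ₀ (by norm_num)
  have hκ4 : κ ≤ 1 / 4 := min_le_right _ _
  have hC1' : 0 < C1 := by linarith
  have hcκ : 0 < c₀ * κ := mul_pos hc₀ hκ
  have hcκ' : c₀ * κ ≤ 1 / 4 := le_trans (mul_le_of_le_one_left hκ.le hc₀') hκ4
  obtain ⟨δ₁, hδ₁, hh⟩ := hhub (c₀ * κ / C1) (by positivity)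
  obtain ⟨δ₂, hδ₂, hanti⟩ := hT3 (c₀ * κ) hcκ hcκ'
  set δ : ℝ := min (min δ₁ δ₂) (min (c₀ * κ / C1) (min (1 / 100) (1 / (8 * (K1 + 1))))) with hδdef
  have hδ0 : 0 < δ := by positivity
  have hδ1 : δ ≤ δ₁ := (min_le_left _ _).trans (min_le_left _ _)
  have hδ2 : δ ≤ δ₂ := (min_le_left _ _).trans (min_le_right _ _)
  have hδ3 : δ ≤ c₀ * κ / C1 := (min_le_right _ _).trans (min_le_left _ _)
  have hδ4 : δ ≤ 1 / 100 :=
    (min_le_right _ _).trans ((min_le_right _ _).trans (min_le_left _ _))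
  have hδ5 : δ ≤ 1 / (8 * (K1 + 1)) :=
    (min_le_right _ _).trans ((min_le_right _ _).trans (min_le_right _ _))
  refine ⟨δ, δ, hδ0, le_rfl, hδ4, fun V _ F side n hn H => ?_⟩
  have hn0 : (0 : ℝ) < n := by exact_mod_cast hn
  have h1n : 1 ≤ δ * n := (H.one_lt hn (by linarith)).le
  have hK1 : 8 * (K1 : ℝ) * δ ≤ 1 := by
    rw [le_div_iff₀ (by positivity)] at hδ5
    nlinarith
  obtain ⟨I, Q, f, sd, hH, hQ, hQI, hQc, hsp, hfoot⟩ := hh V F side n δ δ hn hδ0 le_rfl hδ1 H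
  obtain ⟨ξ, σ, Q', hσ, h1, h2, h3, h4, h5⟩ := hst V F n Q f κ hκ fun l =>
    (mul_le_mul_of_nonneg_right (min_le_left κ₀ (1 / 4)) hn0.le).trans (hQc l)
  rcases h5 with h5 | h5
  · -- anticomplete
    have hle : 2 * T3 ≤ m := le_max_right _ _
    obtain ⟨b', ρ, hρ, hρ'⟩ := exists_const_side T3 fun i => sd (σ (Fin.castLE hle i))
    set τ : Fin T3 → Fin m := fun i => Fin.castLE hle (ρ i) with hτ
    have hτi : Function.Injective τ := (Fin.castLE_injective hle).comp hρ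
    have hτi' : Function.Injective fun i => σ (τ i) := hσ.comp hτi
    have hH' := (hH.sub (fun i => σ (τ i)) hτi' (fun i => Q' (τ i)) fun i => h3 _).image
    refine hanti V F side n δ δ hn hδ0 le_rfl hδ2 H (fun i => I (σ (τ i)))
      (fun i => (Q' (τ i)).image (f (σ (τ i)))) (fun i => Q' (τ i)) b' hH'
      (fun l l' hll' x hx y hy => ?_) (fun s => ?_) (fun l x hx => ?_)
      (fun l l' x hx y hy => hQI _ _ x (h3 _ hx) y hy)
      (fun l => (mul_le_mul_of_nonneg_right h1 hn0.le).trans (h4 _))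
    · obtain ⟨x', hx', rfl⟩ := mem_image.1 hx
      obtain ⟨y', hy', rfl⟩ := mem_image.1 hy
      exact h5 _ _ (hτi.ne hll') x' hx' y' hy'
    · refine (cnt_mono _ _ (biUnion_subset.2 fun l _ => ?_)).trans (hfoot s)
      refine Subset.trans ?_ (subset_biUnion_of_mem (fun l =>
        (I l ∪ (Q l).image (f l)) ∪ nbh F (I l ∪ (Q l).image (f l))) (mem_univ (σ (τ l))))
      have e1 : I (σ (τ l)) ∪ (Q' (τ l)).image (f (σ (τ l))) ⊆
          I (σ (τ l)) ∪ (Q (σ (τ l))).image (f (σ (τ l))) :=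
        union_subset_union (Subset.refl _) (image_subset_image (h3 _))
      exact union_subset_union e1 (nbh_mono F e1)
    · have e1 := hQ _ x (h3 _ hx)
      exact ⟨e1.1.trans (hρ' l), f (σ (τ l)) x, mem_image_of_mem _ hx, e1.2⟩
  · -- coherent
    have hle : M1 ≤ m := le_max_left _ _
    set τ : Fin M1 → Fin T := fun i => σ (Fin.castLE hle i) with hτ
    have hτi : Function.Injective τ := hσ.comp (Fin.castLE_injective hle)
    have hH' := hH.sub τ hτi (fun i => Q' (Fin.castLE hle i)) fun i => h3 _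
    have hξ0 : 0 < ξ := hcκ.trans_le h1
    have hθ : c₀ * κ / C1 ≤ ξ / C1 := div_le_div_of_nonneg_right h1 hC1'.le
    have hS : Sys1 F (fun i => I (τ i)) (fun i => Q' (Fin.castLE hle i)) (fun i => f (τ i)) ξ
        (ξ / C1) (ξ / C1) n := by
      refine ⟨hH', fun l => h4 _, fun l l' hll' x hx => ?_, fun l x hx => ?_,
        fun l l' hll' X hX Y hY hXc hYc =>
          h5 _ _ ((Fin.castLE_injective hle).ne hll') X hX Y hY hXc hYc⟩
      · refine le_trans ?_ (mul_le_mul_of_nonneg_right hθ hn0.le)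
        refine le_trans ?_ (hsp (τ l) (τ l') (hτi.ne hll') x (h3 _ hx))
        exact Nat.cast_le.2 (card_le_card (filter_subset_filter _ (h3 _)))
      · refine le_trans ?_ (mul_le_mul_of_nonneg_right (hδ3.trans hθ) hn0.le)
        refine le_trans ?_ (H.deg_sub (b := sd (τ l)) (X := Q (τ l))
          (fun y hy => (hQ _ y hy).1) (f (τ l) x))
        refine Nat.cast_le.2 (card_le_card fun y hy => ?_)
        obtain ⟨e1, e2⟩ := mem_filter.1 hy
        have e3 := (hQ _ y (h3 _ e1)).2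
        refine mem_filter.2 ⟨h3 _ e1, ?_⟩
        rw [← e2]
        exact e3.symm
    have hF := hW1 V F _ _ _ ξ n hξ0 hn hS
    refine Found.footprint H h1n hK1 (univ.biUnion fun l =>
      (I l ∪ (Q l).image (f l)) ∪ nbh F (I l ∪ (Q l).image (f l))) (fun l => ?_) hfoot hF
    refine Subset.trans ?_ (subset_biUnion_of_mem (fun l =>
      (I l ∪ (Q l).image (f l)) ∪ nbh F (I l ∪ (Q l).image (f l))) (mem_univ (τ l)))
    exact union_subset_union subset_union_left (nbh_mono F subset_union_left)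

end Pool.Agent.Helper32.PD
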