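import Pool.Agent.Helper32.PD.Defs

/-!
# Small lemmas for the core: monotonicity, restriction, footprints
-/

set_option autoImplicit false

namespace Pool.Agent.Helper32.PD

open Finset
open scoped Classical

variable {V : Type}

theorem Found.of_comp {F : SimpleGraph V} {ι₀ ι₁ ε : Type} {a : ε → ι₀} {b : ε → ι₁} {q K : ℕ}
    {Λ Λ' : Type} {I : Λ → Finset V} {σ : Λ' → Λ} (h : Found F a b q K fun i => I (σ i)) :
    Found F a b q K I := by
  obtain ⟨g, f₀, f₁, p, W₀, h1, h2, h3, h4, h5, h6, h7⟩ := h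
  exact ⟨g, f₀, f₁, p, W₀, h1, h2, h3, h4, h5, h6, fun e v hv =>
    (h7 e v hv).imp id fun ⟨l, hl⟩ => ⟨σ l, hl⟩⟩

theorem Found.mono {F : SimpleGraph V} {ι₀ ι₁ ε : Type} {a : ε → ι₀} {b : ε → ι₁} {q K K' : ℕ}
    {Λ : Type} {I : Λ → Finset V} (h : Found F a b q K I) (hK : K ≤ K') :
    Found F a b q K' I := by
  obtain ⟨g, f₀, f₁, p, W₀, h1, h2, h3, h4, h5, h6, h7⟩ := h
  exact ⟨g, f₀, f₁, p, W₀, h1, h2, h3, h4.trans hK, h5, h6, h7⟩

theorem Hubs.sub {F : SimpleGraph V} {Λ Λ' : Type} {I Q : Λ → Finset V} {f : Λ → V → V}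
    (H : Hubs F I Q f) (σ : Λ' → Λ) (hσ : Function.Injective σ) (Q' : Λ' → Finset V)
    (hQ' : ∀ i, Q' i ⊆ Q (σ i)) : Hubs F (fun i => I (σ i)) Q' (fun i => f (σ i)) :=
  ⟨fun l => H.conn _, fun l l' h => H.hub_anti _ _ (hσ.ne h),
    fun l x hx => H.leaf_not _ x (hQ' l hx), fun l x hx => H.leaf_adj _ x (hQ' l hx),
    fun l l' h x hx => H.leaf_anti _ _ (hσ.ne h) x (hQ' l hx)⟩

theorem Hubs.image {F : SimpleGraph V} {Λ : Type} {I Q : Λ → Finset V} {f : Λ → V → V}
    (H : Hubs F I Q f) : Hubs F I (fun l => (Q l).image (f l)) (fun _ x => x) := by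
  refine ⟨H.conn, H.hub_anti, fun l x hx => ?_, fun l x hx => ?_, fun l l' h x hx => ?_⟩
  · obtain ⟨y, hy, rfl⟩ := mem_image.1 hx
    exact H.leaf_not l y hy
  · obtain ⟨y, hy, rfl⟩ := mem_image.1 hx
    exact H.leaf_adj l y hy
  · obtain ⟨y, hy, rfl⟩ := mem_image.1 hx
    exact H.leaf_anti l l' h y hy

theorem nbh_mono [Fintype V] (F : SimpleGraph V) {S T : Finset V} (h : S ⊆ T) :
    nbh F S ⊆ nbh F T := by
  intro v hv
  obtain ⟨s, hs, hsv⟩ := (mem_filter.1 hv).2
  exact mem_filter.2 ⟨mem_univ _, s, h hs, hsv⟩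

theorem mem_nbh [Fintype V] {F : SimpleGraph V} {S : Finset V} {v : V} :
    v ∈ nbh F S ↔ ∃ s ∈ S, F.Adj s v := by
  unfold nbh
  simp

theorem cnt_mono (side : V → Bool) (b : Bool) {S T : Finset V} (h : S ⊆ T) :
    cnt side b S ≤ cnt side b T := by
  unfold cnt
  exact_mod_cast card_le_card (filter_subset_filter _ h)

theorem cnt_union_le (side : V → Bool) (b : Bool) (S T : Finset V) :
    cnt side b (S ∪ T) ≤ cnt side b S + cnt side b T := by
  unfold cnt
  rw [filter_union]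
  exact_mod_cast card_union_le _ _

theorem cnt_le_card (side : V → Bool) (b : Bool) (S : Finset V) : cnt side b S ≤ S.card := by
  unfold cnt
  exact_mod_cast card_filter_le _ _

theorem cnt_nonneg (side : V → Bool) (b : Bool) (S : Finset V) : 0 ≤ cnt side b S := by
  unfold cnt
  positivity

theorem cnt_biUnion_le {ι : Type*} (side : V → Bool) (b : Bool) (s : Finset ι)
    (S : ι → Finset V) : cnt side b (s.biUnion S) ≤ ∑ i ∈ s, cnt side b (S i) := by
  unfold cnt
  rw [filter_biUnion]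
  exact_mod_cast card_biUnion_le

theorem Host.cnt_nbh_le [Fintype V] {F : SimpleGraph V} {side : V → Bool} {n : ℕ} {δ c : ℝ}
    (H : Host F side n δ c) (b : Bool) (S : Finset V) :
    cnt side b (nbh F S) ≤ S.card * (δ * n) := by
  have h1 : nbh F S = S.biUnion fun s => univ.filter fun w => F.Adj s w := by
    ext v
    rw [mem_nbh]
    simp
  rw [h1]
  calc _ ≤ ∑ s ∈ S, cnt side b (univ.filter fun w => F.Adj s w) := cnt_biUnion_le _ _ _ _
    _ ≤ ∑ _s ∈ S, δ * n := sum_le_sum fun s _ => H.deg s b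
    _ = _ := by rw [sum_const, nsmul_eq_mul]

/-- the degree condition for a subset of one side -/
theorem Host.deg_sub [Fintype V] {F : SimpleGraph V} {side : V → Bool} {n : ℕ} {δ c : ℝ}
    (H : Host F side n δ c) {b : Bool} {X : Finset V} (hX : ∀ x ∈ X, side x = b) (v : V) :
    ((X.filter fun x => F.Adj v x).card : ℝ) ≤ δ * n := by
  refine le_trans ?_ (H.deg v b)
  unfold cnt
  refine Nat.cast_le.2 (card_le_card fun x hx => ?_)
  obtain ⟨h1, h2⟩ := mem_filter.1 hx
  exact mem_filter.2 ⟨mem_filter.2 ⟨mem_univ _, h2⟩, hX x h1⟩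

/-- The footprint of a found subdivision. -/
theorem Found.footprint [Fintype V] {F : SimpleGraph V} {side : V → Bool} {n : ℕ} {δ c : ℝ}
    (H : Host F side n δ c) (h1n : 1 ≤ δ * n) {ι₀ ι₁ ε : Type} {a : ε → ι₀} {b : ε → ι₁}
    {q K : ℕ} {Λ : Type} [Fintype Λ] {I : Λ → Finset V} (hK : 8 * (K : ℝ) * δ ≤ 1)
    (P : Finset V) (hP : ∀ l, I l ∪ nbh F (I l) ⊆ P) (hPc : ∀ s, cnt side s P ≤ n / 4)
    (h : Found F a b q K I) :
    ∃ (g : ℕ) (f₀ : ι₀ → V) (f₁ : ι₁ → V) (p : ε → List V) (W : Finset V),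
      g < q ∧ g + 1 ≠ q ∧ SubD F a b q g f₀ f₁ p ∧ (∀ i, f₀ i ∈ W) ∧ (∀ i, f₁ i ∈ W) ∧
        (∀ e, ∀ v ∈ p e, v ∈ W) ∧ ∀ s, cnt side s (W ∪ nbh F W) ≤ n / 2 := by
  obtain ⟨g, f₀, f₁, p, W₀, h1, h2, h3, h4, h5, h6, h7⟩ := h
  refine ⟨g, f₀, f₁, p, W₀ ∪ univ.biUnion I, h1, h2, h3, fun i => mem_union_left _ (h5 i),
    fun i => mem_union_left _ (h6 i), fun e v hv => ?_, fun s => ?_⟩
  · rcases h7 e v hv with h8 | ⟨l, hl⟩
    · exact mem_union_left _ h8
    · exact mem_union_right _ (mem_biUnion.2 ⟨l, mem_univ _, hl⟩)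
  · have hn0 : (0 : ℝ) ≤ n := Nat.cast_nonneg n
    have hsub : (W₀ ∪ univ.biUnion I) ∪ nbh F (W₀ ∪ univ.biUnion I) ⊆
        (W₀ ∪ nbh F W₀) ∪ P := by
      intro v hv
      rcases mem_union.1 hv with hv | hv
      · rcases mem_union.1 hv with hv | hv
        · exact mem_union_left _ (mem_union_left _ hv)
        · obtain ⟨l, _, hl⟩ := mem_biUnion.1 hv
          exact mem_union_right _ (hP l (mem_union_left _ hl))
      · obtain ⟨w, hw, hwv⟩ := mem_nbh.1 hv
        rcases mem_union.1 hw with hw | hw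
        · exact mem_union_left _ (mem_union_right _ (mem_nbh.2 ⟨w, hw, hwv⟩))
        · obtain ⟨l, _, hl⟩ := mem_biUnion.1 hw
          exact mem_union_right _ (hP l (mem_union_right _ (mem_nbh.2 ⟨w, hl, hwv⟩)))
    have hW0 : (W₀.card : ℝ) ≤ K := by exact_mod_cast h4
    have hδn : 0 ≤ δ * n := by linarith
    calc cnt side s _ ≤ cnt side s ((W₀ ∪ nbh F W₀) ∪ P) := cnt_mono _ _ hsub
      _ ≤ cnt side s (W₀ ∪ nbh F W₀) + cnt side s P := cnt_union_le _ _ _ _
      _ ≤ (cnt side s W₀ + cnt side s (nbh F W₀)) + n / 4 :=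
          add_le_add (cnt_union_le _ _ _ _) (hPc s)
      _ ≤ (K + K * (δ * n)) + n / 4 := by
          have e1 := cnt_le_card side s W₀
          have e2 := H.cnt_nbh_le s W₀
          have e3 := mul_le_mul_of_nonneg_right hW0 hδn
          linarith
      _ ≤ n / 2 := by
          have e4 : (K : ℝ) ≤ K * (δ * n) := le_mul_of_one_le_right (Nat.cast_nonneg K) h1n
          have e5 := mul_le_mul_of_nonneg_right hK hn0
          nlinarith

/-- pigeonhole for a Boolean label -/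
theorem exists_const_side (m : ℕ) (sd : Fin (2 * m) → Bool) :
    ∃ (b : Bool) (σ : Fin m → Fin (2 * m)), Function.Injective σ ∧ ∀ i, sd (σ i) = b := by
  have h1 : (univ.filter fun i => sd i = true).card + (univ.filter fun i => ¬ sd i = true).card =
      2 * m := by
    rw [card_filter_add_card_filter_not, card_univ, Fintype.card_fin]
  have key : ∀ b : Bool, m ≤ (univ.filter fun i => sd i = b).card →
      ∃ σ : Fin m → Fin (2 * m), Function.Injective σ ∧ ∀ i, sd (σ i) = b := by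
    intro b hb
    obtain ⟨s, hs, hsc⟩ := exists_subset_card_eq hb
    refine ⟨fun i => s.orderEmbOfFin hsc i, (s.orderEmbOfFin hsc).injective, fun i => ?_⟩
    have h2 := hs (s.orderEmbOfFin_mem hsc i)
    exact (mem_filter.1 h2).2
  by_cases h2 : m ≤ (univ.filter fun i => sd i = true).card
  · obtain ⟨σ, h3⟩ := key true h2
    exact ⟨true, σ, h3⟩
  · have h3 : m ≤ (univ.filter fun i => sd i = false).card := by
      have h4 : (univ.filter fun i => ¬ sd i = true) = univ.filter fun i => sd i = false := by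
        refine filter_congr fun i _ => ?_
        simp
      rw [h4] at h1
      omega
    obtain ⟨σ, h5⟩ := key false h3
    exact ⟨false, σ, h5⟩

end Pool.Agent.Helper32.PD
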