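import Mathlib

/-!
# Definitions for the dense part of the pivot-minor problem
-/

set_option autoImplicit false

namespace Pool.Agent.Helper32.PD

open Finset
open scoped Classical

variable {V : Type}

/-! ## Paths, connected sets -/

/-- The list `l` is an induced path of `F`. -/
def IPath (F : SimpleGraph V) (l : List V) : Prop :=
  l.Nodup ∧ ∀ (i j : ℕ) (hi : i < l.length) (hj : j < l.length),
    F.Adj l[i] l[j] ↔ (j = i + 1 ∨ i = j + 1)

/-- No common element and no edge between two lists. -/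
def AntiL (F : SimpleGraph V) (l l' : List V) : Prop :=
  ∀ x ∈ l, ∀ y ∈ l', x ≠ y ∧ ¬ F.Adj x y

/-- `S` is nonempty and connected in `F` (cut version). -/
def Conn (F : SimpleGraph V) (S : Finset V) : Prop :=
  S.Nonempty ∧ ∀ T ⊆ S, T.Nonempty → T ≠ S → ∃ x ∈ T, ∃ y ∈ S \ T, F.Adj x y

/-- `l` is a list of elements of `I` such that `y, l, t` is an induced path. -/
def HubPath (F : SimpleGraph V) (I : Finset V) (y t : V) (l : List V) : Prop :=
  (∀ v ∈ l, v ∈ I) ∧ IPath F (y :: (l ++ [t]))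

/-- A chosen path through the hub `I` from `y` to `t`. -/
noncomputable def hp (F : SimpleGraph V) (I : Finset V) (y t : V) : List V :=
  if h : ∃ l, HubPath F I y t l then h.choose else []

/-- The neighbourhood of a set. -/
noncomputable def nbh [Fintype V] (F : SimpleGraph V) (S : Finset V) : Finset V :=
  univ.filter fun v => ∃ s ∈ S, F.Adj s v

/-- The number of elements of `S` on the side `b`. -/
noncomputable def cnt (side : V → Bool) (b : Bool) (S : Finset V) : ℝ :=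
  ((S.filter fun v => side v = b).card : ℝ)

/-! ## Hosts -/

/-- A sparse graph on two sides with `n` vertices each, without linear anticomplete pairs
between the sides. -/
structure Host [Fintype V] (F : SimpleGraph V) (side : V → Bool) (n : ℕ) (δ c : ℝ) : Prop where
  card : ∀ b, (univ.filter fun v => side v = b).card = n
  deg : ∀ v b, cnt side b (univ.filter fun w => F.Adj v w) ≤ δ * n
  dense : ∀ X Y : Finset V, (∀ x ∈ X, side x = true) → (∀ y ∈ Y, side y = false) →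
    c * n ≤ X.card → c * n ≤ Y.card → ∃ x ∈ X, ∃ y ∈ Y, F.Adj x y

/-! ## The induced subdivision -/

/-- An induced subdivision of the bipartite multigraph with edges `e`, ends `a e`, `b e`: every
edge is replaced by a path with list `p e` of interior vertices, of length `g` modulo `q`. -/
structure SubD (F : SimpleGraph V) {ι₀ ι₁ ε : Type} (a : ε → ι₀) (b : ε → ι₁) (q g : ℕ)
    (f₀ : ι₀ → V) (f₁ : ι₁ → V) (p : ε → List V) : Prop where
  inj₀ : Function.Injective f₀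
  inj₁ : Function.Injective f₁
  ne : ∀ i j, f₀ i ≠ f₁ j
  indep₀ : ∀ i j, ¬ F.Adj (f₀ i) (f₀ j)
  indep₁ : ∀ i j, ¬ F.Adj (f₁ i) (f₁ j)
  indep : ∀ i j, ¬ F.Adj (f₀ i) (f₁ j)
  path : ∀ e, IPath F (f₀ (a e) :: (p e ++ [f₁ (b e)]))
  len : ∀ e, (p e).length % q = g
  far₀ : ∀ e i, i ≠ a e → AntiL F [f₀ i] (p e)
  far₁ : ∀ e i, i ≠ b e → AntiL F [f₁ i] (p e)
  anti : ∀ e e', e ≠ e' → AntiL F (p e) (p e')

/-- An induced subdivision inside of `W₀` and the hubs, with a good residue. -/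
def Found (F : SimpleGraph V) {ι₀ ι₁ ε : Type} (a : ε → ι₀) (b : ε → ι₁) (q K : ℕ)
    {Λ : Type} (I : Λ → Finset V) : Prop :=
  ∃ (g : ℕ) (f₀ : ι₀ → V) (f₁ : ι₁ → V) (p : ε → List V) (W₀ : Finset V),
    g < q ∧ g + 1 ≠ q ∧ SubD F a b q g f₀ f₁ p ∧ W₀.card ≤ K ∧ (∀ i, f₀ i ∈ W₀) ∧
      (∀ i, f₁ i ∈ W₀) ∧ ∀ e, ∀ v ∈ p e, v ∈ W₀ ∨ ∃ l, v ∈ I l

/-! ## Hubs and leaves -/

/-- Pairwise anticomplete connected hubs `I l`, each with a family of leaves `f l x`, `x ∈ Q l`,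
attached to `I l` only. -/
structure Hubs (F : SimpleGraph V) {Λ : Type} (I Q : Λ → Finset V) (f : Λ → V → V) :
    Prop where
  conn : ∀ l, Conn F (I l)
  hub_anti : ∀ l l', l ≠ l' → ∀ x ∈ I l, ∀ y ∈ I l', x ≠ y ∧ ¬ F.Adj x y
  leaf_not : ∀ l, ∀ x ∈ Q l, f l x ∉ I l
  leaf_adj : ∀ l, ∀ x ∈ Q l, ∃ y ∈ I l, F.Adj (f l x) y
  leaf_anti : ∀ l l', l ≠ l' → ∀ x ∈ Q l, ∀ y ∈ I l', f l x ≠ y ∧ ¬ F.Adj (f l x) y

/-- The coherent system: any two large sets of leaves of different hubs see each other. -/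
structure Sys1 (F : SimpleGraph V) {Λ : Type} (I Q : Λ → Finset V) (f : Λ → V → V)
    (ξ lam θ : ℝ) (n : ℕ) : Prop where
  hubs : Hubs F I Q f
  size : ∀ l, ξ * n ≤ (Q l).card
  sparse : ∀ l l', l ≠ l' → ∀ x ∈ Q l,
    (((Q l').filter fun y => F.Adj (f l x) (f l' y)).card : ℝ) ≤ θ * n
  single : ∀ l, ∀ x ∈ Q l, (((Q l).filter fun y => f l y = f l x).card : ℝ) ≤ θ * n
  coh : ∀ l l', l ≠ l' → ∀ X ⊆ Q l, ∀ Y ⊆ Q l', lam * n ≤ X.card → lam * n ≤ Y.card →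
    ∃ x ∈ X, ∃ y ∈ Y, F.Adj (f l x) (f l' y)

/-- The anticomplete system: the leaf sets `L l` are pairwise anticomplete, every `x ∈ X` has a
leaf `f l x` in every `L l`, and there is a third party `O` that sees `X` but no leaves. -/
structure Sys2 (F : SimpleGraph V) {Λ : Type} (I L : Λ → Finset V) (f : Λ → V → V)
    (X O : Finset V) (ξ lam θ : ℝ) (n : ℕ) : Prop where
  conn : ∀ l, Conn F (I l)
  hub_anti : ∀ l l', l ≠ l' → ∀ x ∈ I l, ∀ y ∈ I l', x ≠ y ∧ ¬ F.Adj x y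
  leaf_not : ∀ l, ∀ t ∈ L l, t ∉ I l
  leaf_adj : ∀ l, ∀ t ∈ L l, ∃ y ∈ I l, F.Adj t y
  leaf_anti : ∀ l l', l ≠ l' → ∀ t ∈ L l, ∀ y ∈ I l', t ≠ y ∧ ¬ F.Adj t y
  leaf_leaf : ∀ l l', l ≠ l' → ∀ t ∈ L l, ∀ t' ∈ L l', t ≠ t' ∧ ¬ F.Adj t t'
  X_hub : ∀ x ∈ X, ∀ l, ∀ y ∈ I l, x ≠ y ∧ ¬ F.Adj x y
  O_hub : ∀ x ∈ O, ∀ l, ∀ y ∈ I l, x ≠ y ∧ ¬ F.Adj x y
  O_leaf : ∀ x ∈ O, ∀ l, ∀ t ∈ L l, x ≠ t ∧ ¬ F.Adj x t
  f_mem : ∀ x ∈ X, ∀ l, f l x ∈ L l ∧ F.Adj x (f l x)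
  sizeX : ξ * n ≤ X.card
  sizeO : ξ * n ≤ O.card
  degX : ∀ v, ((X.filter fun x => F.Adj v x).card : ℝ) ≤ θ * n
  degO : ∀ v, ((O.filter fun x => F.Adj v x).card : ℝ) ≤ θ * n
  good : ∀ x ∈ X, ∀ l, ((X.filter fun y => F.Adj x (f l y)).card : ℝ) ≤ θ * n
  coh : ∀ X' ⊆ X, ∀ O' ⊆ O, lam * n ≤ X'.card → lam * n ≤ O'.card →
    ∃ x ∈ X', ∃ o ∈ O', F.Adj x o

/-! ## Pieces between the leaves of the anticomplete system -/

/-- A list from the leaf `ref l` to the leaf `ref l'` that becomes a link with residue `g` if the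
residues of the hubs are `r`. -/
structure LinkPiece (F : SimpleGraph V) {Λ : Type} (I : Λ → Finset V) (ref : Λ → V) (r : Λ → ℕ)
    (q g : ℕ) (W : Finset V) (l l' : Λ) (D : List V) : Prop where
  ne : l ≠ l'
  path : IPath F D
  head : D.head? = some (ref l)
  last : D.getLast? = some (ref l')
  mem : ∀ v ∈ D, v ∈ W
  len : (D.length + r l + r l' + 2) % q = g
  hub : ∀ v ∈ D, ∀ y ∈ I l, F.Adj v y → v = ref l
  hub' : ∀ v ∈ D, ∀ y ∈ I l', F.Adj v y → v = ref l'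

/-- A claw with centre `c` and three legs to the leaves `ref (l κ)`, all of even length if the
residues of the hubs are `r`. -/
structure ClawPiece (F : SimpleGraph V) {Λ : Type} (I : Λ → Finset V) (ref : Λ → V) (r : Λ → ℕ)
    (W : Finset V) (c : V) (l : Fin 3 → Λ) (D : Fin 3 → List V) : Prop where
  inj : Function.Injective l
  path : ∀ κ, IPath F (c :: D κ)
  last : ∀ κ, (c :: D κ).getLast? = some (ref (l κ))
  mem : c ∈ W
  mem' : ∀ κ, ∀ v ∈ D κ, v ∈ W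
  len : ∀ κ, ((D κ).length + r (l κ) + 1) % 2 = 0
  anti : ∀ κ κ', κ ≠ κ' → AntiL F (D κ) (D κ')
  hub : ∀ κ, ∀ y ∈ I (l κ), F.Adj c y → c = ref (l κ)
  hub' : ∀ κ κ', ∀ v ∈ D κ', ∀ y ∈ I (l κ), F.Adj v y → v = ref (l κ)

/-- A gadget: for all residues it contains a good link piece or (for `q = 2`) a good claw
piece. -/
def Gadget (F : SimpleGraph V) {Λ : Type} (I : Λ → Finset V) (ref : Λ → V) (q : ℕ)
    (W : Finset V) (G : Λ → Prop) : Prop :=
  ∀ r : Λ → ℕ,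
    (∃ g l l' D, g < q ∧ g + 1 ≠ q ∧ G l ∧ G l' ∧ LinkPiece F I ref r q g W l l' D) ∨
      (q = 2 ∧ ∃ c l D, (∀ κ, G (l κ)) ∧ ClawPiece F I ref r W c l D)

end Pool.Agent.Helper32.PD
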