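import Pool.Agent.Helper64.PD.Dense
import Pool.Agent.Helper32.PD.Core
import Pool.Agent.Helper58.PD.Two
import Pool.Agent.Helper40.PD.Alg3
import Pool.Agent.Helper8.PD.Conn
import Pool.Agent.Helper76.PD.GammaOdd
import Pool.Agent.Helper76.PD.GammaCompl
import Pool.Agent.Helper29.PD.Flip
import Pool.Agent.Helper35.PM.Frozen

set_option autoImplicit false

namespace Pool.Agent.Helper32.PD.Fin

open Finset Pool.Agent.Helper64.PD
open Pool.Agent.Helper32.PD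
open scoped Classical

theorem denseQ {W : Type} [Fintype W] (H : SimpleGraph W) (hH : H.Colorable 2) :
    Pool.Agent.Helper35.PM.DenseQ H := by
  refine denseQ_of ?_ ?_ ?_ ?_ ?_ ?_ ?_ ?_ H hH
  · intro ι₀ ι₁ ε _ _ _ a b ha hb q hq
    exact core a b ha hb q hq
  · intro V ι₀ ι₁ ε _ _ _ F a b hab f₀ f₁ p h
    exact pivotMinor_of_subD_two F a b hab f₀ f₁ p h
  · intro V ι₀ ι₁ ε _ _ _ F G a b hab h0 h1 f₀ f₁ p W z h2 h3 h4 h5 h6 h7
    exact pivotMinor_of_subD_three_one F G a b hab h0 h1 f₀ f₁ p W z h2 h3 h4 h5 h6 h7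
  · intro V ι₀ ι₁ ε _ _ _ F G a b hab f₀ f₁ p W z h2 h3 h4 h5 h6 h7
    exact pivotMinor_of_subD_three_zero F G a b hab f₀ f₁ p W z h2 h3 h4 h5 h6 h7
  · intro V ι₀ ι₁ ε κ₀ κ₁ η F a b q g f₀ f₁ p h a' b' s₀ s₁ s h0 h1 h2 h3 h4
    exact SubD.restrict h a' b' s₀ s₁ s h0 h1 h2 h3 h4
  · exact exists_gamma_odd
  · exact exists_gamma_compl
  · intro V G side W z u h1 h2 h3 h4 h5
    exact exists_flip G side W z u h1 h2 h3 h4 h5

end Pool.Agent.Helper32.PD.Fin
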